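import Pool.Agent.R341.IrrPisot6

set_option autoImplicit false

open Polynomial

namespace Pool.Agent.Results.MP_3c3704_nt.InfinitelyMany

open Pool.Agent.R341.IrrPisot

/-- There are infinitely many irregular Pisot numbers in `(1.933, 2)` which have degree `≥ 151` and
are not simple Parry numbers. -/
theorem result : Set.Infinite {q : ℝ | 1.933 < q ∧ q < 2 ∧ IsPisot q ∧
    (∀ R : ℤ[X], Listed R → aeval q R ≠ 0) ∧
    151 ≤ (minpoly ℚ q).natDegree ∧ ¬ SimpleParry q} := by
  have key : ∀ j : ℕ, ∃ β : ℝ, 1.933 < β ∧ β < 2 ∧ pf (3 * (j + 12) + 2) β = 0 := fun j =>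
    exists_root (by omega)
  choose f hf1 hf2 hf using key
  have hdeg : ∀ j, (minpoly ℚ (f j)).natDegree = 4 * (3 * (j + 12) + 2) + 4 := fun j =>
    degree_eq (by linarith [hf1 j]) (hf j)
  have hinj : Function.Injective f := by
    intro a b hab
    have h1 := hdeg a
    have h2 := hdeg b
    rw [hab, h2] at h1
    omega
  refine (Set.infinite_range_of_injective hinj).mono ?_
  rintro _ ⟨j, rfl⟩
  refine ⟨hf1 j, hf2 j, isPisot (by linarith [hf1 j]) (hf j), fun R hR => ?_, ?_, ?_⟩
  · exact irregular (by omega) (hf1 j) (hf2 j) (hf j) hR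
  · rw [hdeg j]; omega
  · exact not_simple (by linarith [hf1 j]) (hf j)

end Pool.Agent.Results.MP_3c3704_nt.InfinitelyMany
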